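import Pool.Agent.Helper96.MP.DefsB

/-! KEQ: all functions; transport by an equivalence. -/

set_option autoImplicit false

namespace Pool.Agent.Helper96.MP

theorem keq_top (P : Type) [Fintype P] : LB P ⊤ (Fintype.card P) 1 := by
  classical
  have hb : (fun (i : P) (x : P) => (((if x = i then (1 : ℤ) else 0 : ℤ)) : ℝ)) =
      fun i => Pi.basisFun ℝ P i := by
    funext i x
    simp [Pi.basisFun_apply, Pi.single_apply]
  refine ⟨P, inferInstance, inferInstance, fun i x => if x = i then 1 else 0, rfl, ?_, ?_, ?_⟩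
  · rw [hb]
    exact (Pi.basisFun ℝ P).linearIndependent
  · rw [hb]
    exact (Pi.basisFun ℝ P).span_eq
  · have : (Matrix.of (fun i j : P => ∑ x, (((if x = i then (1 : ℤ) else 0 : ℤ)) : ℝ) *
        (((if x = j then (1 : ℤ) else 0 : ℤ)) : ℝ))) = (1 : Matrix P P ℝ) := by
      ext i j
      rw [Matrix.of_apply, Matrix.one_apply]
      simp only [Int.cast_ite, Int.cast_one, Int.cast_zero, ite_mul, one_mul, zero_mul]
      rw [Finset.sum_ite_eq']
      simp
    rw [this, Matrix.det_one]

theorem keq_transport (P P' : Type) [Fintype P] [Fintype P'] (e : P ≃ P')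
    (V : Submodule ℝ (P → ℝ)) (V' : Submodule ℝ (P' → ℝ)) (r : ℕ) (D : ℝ)
    (hV : ∀ g : P' → ℝ, g ∈ V' ↔ (fun x => g (e x)) ∈ V) (h : LB P' V' r D) : LB P V r D := by
  obtain ⟨ι, i1, i2, b, hc, hli, hsp, hD⟩ := h
  refine ⟨ι, i1, i2, fun i x => b i (e x), hc, ?_, ?_, ?_⟩
  · have h1 := hli.map' (LinearEquiv.funCongrLeft ℝ ℝ e).toLinearMap
      (LinearEquiv.ker (LinearEquiv.funCongrLeft ℝ ℝ e))
    exact h1
  · have h2 : V = V'.map (LinearEquiv.funCongrLeft ℝ ℝ e).toLinearMap := by
      ext g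
      rw [Submodule.mem_map]
      constructor
      · intro hg
        refine ⟨fun y => g (e.symm y), ?_, ?_⟩
        · rw [hV]
          simpa using hg
        · funext x
          simp [LinearEquiv.funCongrLeft]
      · rintro ⟨g', hg', rfl⟩
        exact (hV g').mp hg'
    rw [h2, ← hsp, Submodule.map_span, ← Set.range_comp]
    rfl
  · refine le_trans (le_of_eq ?_) hD
    congr 1
    ext i j
    rw [Matrix.of_apply, Matrix.of_apply]
    exact Equiv.sum_comp e (fun y => (b i y : ℝ) * (b j y : ℝ))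

theorem st_KEQ : ST_KEQ := ⟨fun P _ => keq_top P, fun P P' _ _ e V V' r D hV h =>
  keq_transport P P' e V V' r D hV h⟩

end Pool.Agent.Helper96.MP
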